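import Pool.Agent.helper91.ADV.SpecL

set_option autoImplicit false

namespace Pool.Agent.ADV

open Finset Pool.Agent.helper55.NT Pool.Agent.LNB Pool.Agent.NG Pool.Agent.PB Pool.Agent.PC

theorem BLK (h1 : DIS_stmt) (h2 : SUM_stmt) (h3 : LPB_stmt) : BLK_stmt := by
  intro Z u n e r L d hok he hr hL hL1 hd
  have hM : min (u n) n ≤ n := min_le_right _ _
  have hf : ∀ c : ℕ → (Fin (nB e r) → Bool), PL Z u n (place (min (u n) n) n e r L c) ↔
      ∃ l < L, Z.h e r (c l) = true := fun c => h3 Z (min (u n) n) n e r L hM hok he hr hL c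
  have hneg : ∀ w : Fin L → Fin (nB e r) → Bool, (∀ j, Z.dn e r (w j) ≠ 0) → ∀ i : Fin L,
      ¬ PL Z u n (place (min (u n) n) n e r L (cut w (i + 1))) := by
    intro w hw i hP
    rw [hf] at hP
    obtain ⟨l, hl, hlt⟩ := hP
    unfold cut at hlt
    rw [dif_pos hl] at hlt
    split_ifs at hlt with h4
    · rw [Z.dn0 e r hok _ (hw ⟨l, hl⟩)] at hlt
      exact Bool.false_ne_true hlt
    · rw [Z.zero e r hok] at hlt
      exact Bool.false_ne_true hlt
  have hpos : ∀ (w : Fin L → Fin (nB e r) → Bool) (i : Fin L) (a : Fin (nB e r) → Bool),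
      (∀ j, Z.dn e r (w j) ≠ 0) → Z.dp e r a ≠ 0 →
      PL Z u n (place (min (u n) n) n e r L (cut (Function.update w i a) (i + 1))) := by
    intro w i a _ ha
    rw [hf]
    refine ⟨i, i.2, ?_⟩
    have h4 : cut (Function.update w i a) (i + 1) i = a := by
      unfold cut
      rw [dif_pos i.2, if_pos (Nat.lt_succ_self _)]
      simp
    rw [h4]
    exact Z.dp1 e r hok a ha
  obtain ⟨D, hD, hag⟩ := h1 n (nB e r) L (place (min (u n) n) n e r L) (Z.dp e r) (Z.dn e r) (PL Z u n) hL1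
    (Z.dpd e r hok) (Z.dnd e r hok) hneg hpos
  refine ⟨D, hD, ?_⟩
  intro s K C o hC hP
  have hε : (0 : ℝ) ≤ ((s : ℝ) + 3) / 2 ^ (2 ^ e) := by positivity
  obtain ⟨k1, k2⟩ := h2 n s d (2 ^ (6 * e * (r - 1))) (nB e r) L K (u n) C o (Z.dp e r) (Z.dn e r)
    (((s : ℝ) + 3) / 2 ^ (2 ^ e)) (place (min (u n) n) n e r L) hC hd (Z.dpd e r hok) (Z.dnd e r hok) hε
    (by
      intro v hv
      have h4 := Z.low e r hok v (s + 3) hv
      push_cast at h4
      exact h4)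
    (place_cases (min (u n) n) n e r L)
    (fun c i hi => place_agree he hr hL c i ((min_le_left _ _).trans hi)) hP
  have hLpos : (0 : ℝ) < L := by exact_mod_cast hL1
  rw [hag]
  have hc : (0 : ℝ) ≤ 1 / (2 * (L : ℝ)) := by positivity
  have m1 := mul_le_mul_of_nonneg_left k1 hc
  have m2 := mul_le_mul_of_nonneg_left k2 hc
  have e1 : 1 / (2 * (L : ℝ)) * (((K : ℝ) - 1) + L * (((s : ℝ) + 3) / 2 ^ (2 ^ e))) =
      ((K : ℝ) - 1) / (2 * L) + ((s : ℝ) + 3) / 2 ^ (2 ^ e) / 2 := by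
    field_simp
  have e2 : 1 / (2 * (L : ℝ)) * -((K : ℝ) + L * (((s : ℝ) + 3) / 2 ^ (2 ^ e))) =
      -((K : ℝ) / (2 * L) + ((s : ℝ) + 3) / 2 ^ (2 ^ e) / 2) := by
    field_simp
  rw [e1] at m1
  rw [e2] at m2
  constructor <;> linarith

end Pool.Agent.ADV
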